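import Pool.Agent.Helper97.Sub.Defs

set_option autoImplicit false

namespace Pool.Agent.Helper97.Sub

open MeasureTheory Filter Topology BoundedContinuousFunction
open scoped ComplexConjugate

/-- truncation -/
def c2t {d : ℕ} (c : Fin d) (N : ℕ) (x : ℤ → Fin d) : ℤ → Fin d :=
  fun i => if |i| ≤ (N : ℤ) then x i else c

lemma c2t_cont {d : ℕ} (c : Fin d) (N : ℕ) : Continuous (c2t c N) := by
  apply continuous_pi
  intro i
  unfold c2t
  by_cases h : |i| ≤ (N : ℤ)
  · simp only [h, if_true]
    exact continuous_apply i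
  · simp only [h, if_false]
    exact continuous_const

lemma c2t_tendsto {d : ℕ} (c : Fin d) (x : ℤ → Fin d) :
    Tendsto (fun N => c2t c N x) atTop (𝓝 x) := by
  rw [tendsto_pi_nhds]
  intro i
  apply tendsto_const_nhds.congr'
  filter_upwards [eventually_ge_atTop i.natAbs] with N hN
  unfold c2t
  rw [if_pos]
  rw [Int.abs_eq_natAbs]
  exact_mod_cast hN

lemma c2_sh_iter {d : ℕ} (N : ℕ) (x : ℤ → Fin d) (i : ℤ) : (sh^[N] x) i = x (i + N) := by
  induction N generalizing x i with
  | zero => simp
  | succ N ih =>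
    rw [Function.iterate_succ_apply, ih]
    unfold sh
    congr 1
    push_cast
    ring

theorem C2 : C2_stmt := by
  intro d μ hμ hT f hf ε hε
  have hd : 0 < d := by
    by_contra h0
    have h1 : d = 0 := by omega
    subst h1
    have h2 : (Set.univ : Set (ℤ → Fin 0)) = ∅ := by
      apply Set.eq_empty_of_forall_notMem
      intro x _
      exact Fin.elim0 (x 0)
    have h3 := hμ.measure_univ
    rw [h2, measure_empty] at h3
    exact zero_ne_one h3
  let c : Fin d := ⟨0, hd⟩
  have hf2 : MemLp f (ENNReal.ofReal 2) μ := by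
    have : ENNReal.ofReal 2 = 2 := by simp
    rw [this]; exact hf
  obtain ⟨φ, hφ, hφm⟩ := hf2.exists_boundedContinuous_integral_rpow_sub_le (by norm_num : (0 : ℝ) < 2)
    (show 0 < ε / 8 by linarith)
  have h2 : ENNReal.ofReal 2 = 2 := by simp
  rw [h2] at hφm
  simp only [Real.rpow_two] at hφ
  -- the truncated functions
  let g : ℕ → (ℤ → Fin d) → ℂ := fun N x => φ (c2t c N x)
  have hgc : ∀ N, Continuous (g N) := fun N => φ.continuous.comp (c2t_cont c N)
  have hgm : ∀ N, MemLp (g N) 2 μ := fun N =>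
    MemLp.of_bound (hgc N).aestronglyMeasurable ‖φ‖ (Eventually.of_forall fun x =>
      φ.norm_coe_le_norm _)
  have hlim : Tendsto (fun N => ∫ x, ‖φ x - g N x‖ ^ 2 ∂μ) atTop (𝓝 (∫ _x, (0 : ℝ) ∂μ)) := by
    apply tendsto_integral_of_dominated_convergence (fun _ => (2 * ‖φ‖) ^ 2)
    · intro N
      exact ((φ.continuous.sub (hgc N)).norm.pow 2).aestronglyMeasurable
    · exact integrable_const _
    · intro N
      refine Eventually.of_forall fun x => ?_
      rw [Real.norm_eq_abs, abs_of_nonneg (by positivity)]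
      apply pow_le_pow_left₀ (norm_nonneg _)
      refine le_trans (norm_sub_le _ _) ?_
      have h3 := φ.norm_coe_le_norm x
      have h4 : ‖g N x‖ ≤ ‖φ‖ := φ.norm_coe_le_norm _
      linarith
    · refine Eventually.of_forall fun x => ?_
      have h5 : Tendsto (fun N => g N x) atTop (𝓝 (φ x)) :=
        (φ.continuous.tendsto x).comp (c2t_tendsto c x)
      have h6 := ((tendsto_const_nhds (x := φ x)).sub h5).norm.pow 2
      simpa using h6
  rw [integral_zero] at hlim
  obtain ⟨N, hN⟩ := (hlim.eventually_lt_const (show (0 : ℝ) < ε / 8 by linarith)).exists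
  refine ⟨2 * N + 1, fun l => φ (fun i => if |i| ≤ (N : ℤ) then l.getD (i + N).toNat c else c),
    g N, hgm N, ?_, ?_⟩
  · -- the distance
    have h7 : ∀ x, ‖f x - g N x‖ ^ 2 ≤ 2 * ‖f x - φ x‖ ^ 2 + 2 * ‖φ x - g N x‖ ^ 2 := by
      intro x
      have h8 : ‖f x - g N x‖ ≤ ‖f x - φ x‖ + ‖φ x - g N x‖ := by
        have : f x - g N x = (f x - φ x) + (φ x - g N x) := by ring
        rw [this]
        exact norm_add_le _ _
      have h9 := norm_nonneg (f x - g N x)
      nlinarith [sq_nonneg (‖f x - φ x‖ - ‖φ x - g N x‖), norm_nonneg (f x - φ x),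
        norm_nonneg (φ x - g N x)]
    have hi1 : Integrable (fun x => ‖f x - φ x‖ ^ 2) μ :=
      (hf.sub hφm).integrable_norm_pow (by norm_num)
    have hi2 : Integrable (fun x => ‖φ x - g N x‖ ^ 2) μ :=
      (hφm.sub (hgm N)).integrable_norm_pow (by norm_num)
    have hi3 : Integrable (fun x => ‖f x - g N x‖ ^ 2) μ :=
      (hf.sub (hgm N)).integrable_norm_pow (by norm_num)
    have h10 := integral_mono hi3 ((hi1.const_mul 2).add (hi2.const_mul 2)) h7
    have h11 : ∫ x, (2 * ‖f x - φ x‖ ^ 2 + 2 * ‖φ x - g N x‖ ^ 2) ∂μ =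
        2 * ∫ x, ‖f x - φ x‖ ^ 2 ∂μ + 2 * ∫ x, ‖φ x - g N x‖ ^ 2 ∂μ := by
      rw [integral_add (hi1.const_mul 2) (hi2.const_mul 2), integral_const_mul, integral_const_mul]
    have h13 : ∫ x, ‖f x - g N x‖ ^ 2 ∂μ ≤
        2 * ∫ x, ‖f x - φ x‖ ^ 2 ∂μ + 2 * ∫ x, ‖φ x - g N x‖ ^ 2 ∂μ :=
      le_trans h10 (le_of_eq h11)
    linarith
  · -- same spectral measures
    intro ν
    have hG : ∀ x : ℤ → Fin d, (fun l : List (Fin d) =>
        φ (fun i => if |i| ≤ (N : ℤ) then l.getD (i + N).toNat c else c))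
        (List.ofFn (fun j : Fin (2 * N + 1) => x ((j : ℕ) : ℤ))) = g N (sh^[N] x) := by
      intro x
      simp only [g]
      congr 1
      funext i
      unfold c2t
      by_cases h : |i| ≤ (N : ℤ)
      · rw [if_pos h, if_pos h, c2_sh_iter]
        have h1 := abs_le.mp h
        have h2 : (i + N).toNat < 2 * N + 1 := by omega
        rw [List.getD_eq_getElem _ _ (by rw [List.length_ofFn]; exact h2)]
        rw [List.getElem_ofFn]
        congr 1
        have h3 : ((((i + N).toNat : ℕ)) : ℤ) = i + N := Int.toNat_of_nonneg (by omega)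
        exact h3
      · rw [if_neg h, if_neg h]
    have hkey : ∀ n : ℕ, ∫ x, (fun x : ℤ → Fin d => (fun l : List (Fin d) =>
        φ (fun i => if |i| ≤ (N : ℤ) then l.getD (i + N).toNat c else c))
        (List.ofFn (fun j : Fin (2 * N + 1) => x ((j : ℕ) : ℤ)))) (sh^[n] x) *
        conj ((fun x : ℤ → Fin d => (fun l : List (Fin d) =>
        φ (fun i => if |i| ≤ (N : ℤ) then l.getD (i + N).toNat c else c))
        (List.ofFn (fun j : Fin (2 * N + 1) => x ((j : ℕ) : ℤ)))) x) ∂μ =
        ∫ x, g N (sh^[n] x) * conj (g N x) ∂μ := by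
      intro n
      have hTN := hT.iterate N
      have hTn := hT.iterate n
      have h1 : ∀ x : ℤ → Fin d, (fun x : ℤ → Fin d => (fun l : List (Fin d) =>
        φ (fun i => if |i| ≤ (N : ℤ) then l.getD (i + N).toNat c else c))
        (List.ofFn (fun j : Fin (2 * N + 1) => x ((j : ℕ) : ℤ)))) (sh^[n] x) *
        conj ((fun x : ℤ → Fin d => (fun l : List (Fin d) =>
        φ (fun i => if |i| ≤ (N : ℤ) then l.getD (i + N).toNat c else c))
        (List.ofFn (fun j : Fin (2 * N + 1) => x ((j : ℕ) : ℤ)))) x) =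
        (fun y => g N (sh^[n] y) * conj (g N y)) (sh^[N] x) := by
        intro x
        have h2 := hG (sh^[n] x)
        have h3 := hG x
        simp only at h2 h3 ⊢
        rw [h2, h3, ← Function.iterate_add_apply, ← Function.iterate_add_apply, add_comm N n]
      have h4 : ∫ x, (fun y => g N (sh^[n] y) * conj (g N y)) (sh^[N] x) ∂μ =
          ∫ y, g N (sh^[n] y) * conj (g N y) ∂μ := by
        conv_rhs => rw [← hTN.map_eq]
        rw [integral_map hTN.measurable.aemeasurable]
        apply Measurable.aestronglyMeasurable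
        exact ((hgc N).measurable.comp hTn.measurable).mul
          (Complex.continuous_conj.measurable.comp (hgc N).measurable)
      rw [← h4]
      exact integral_congr_ae (Eventually.of_forall h1)
    unfold IsSpec
    apply and_congr_right
    intro _
    apply forall_congr'
    intro n
    rw [hkey n]

end Pool.Agent.Helper97.Sub
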