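import Pool.Agent.Helper97.Sub.Defs

set_option autoImplicit false

namespace Pool.Agent.Helper97.Sub

open MeasureTheory Filter Topology
open scoped ComplexConjugate FourierTransform

/-! ### algebraic part -/

/-- the value `sum_a (M^k u)_a` -/
def e1a {d : ℕ} (M : Matrix (Fin d) (Fin d) ℤ) (k : ℕ) (u : Fin d → ℤ) : ℤ :=
  ∑ a, ((M ^ k).mulVec u) a

lemma e1a_eq {d : ℕ} (M : Matrix (Fin d) (Fin d) ℤ) (k : ℕ) (u : Fin d → ℤ) :
    e1a M k u = ∑ a, ell M k a * u a := by
  unfold e1a ell Matrix.mulVec dotProduct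
  rw [Finset.sum_comm]
  apply Finset.sum_congr rfl
  intro a _
  rw [Finset.sum_mul]

lemma e1_inv {d : ℕ} (M : Matrix (Fin d) (Fin d) ℤ) (z : Fin d → ℚ)
    (hz : ∀ a, ∑ b, ((M b a : ℤ) : ℚ) * z b = z a) (k : ℕ) (u : Fin d → ℤ) :
    ∑ a, z a * (((M ^ k).mulVec u) a : ℤ) = ∑ a, z a * (u a : ℤ) := by
  induction k generalizing u with
  | zero => simp
  | succ k ih =>
    have h1 : (M ^ (k + 1)).mulVec u = (M ^ k).mulVec (M.mulVec u) := by
      rw [pow_succ, Matrix.mulVec_mulVec]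
    rw [h1, ih]
    have h2 : ∀ b, ((M.mulVec u) b : ℚ) = ∑ a, (M b a : ℚ) * u a := by
      intro b
      unfold Matrix.mulVec dotProduct
      push_cast
      rfl
    simp only [h2, Finset.mul_sum]
    rw [Finset.sum_comm]
    apply Finset.sum_congr rfl
    intro a _
    rw [← hz a, Finset.sum_mul]
    apply Finset.sum_congr rfl
    intro b _
    ring

lemma e1_const {d : ℕ} (N : Matrix (Fin d) (Fin d) ℤ) (u : Fin d → ℤ) (c : ℤ)
    (h : ∀ j : ℕ, j ≤ d → e1a N j u = c) : ∀ j : ℕ, e1a N j u = c := by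
  have hch : ∀ j : ℕ, ∑ i ∈ Finset.range (d + 1), N.charpoly.coeff i * e1a N (j + i) u = 0 := by
    intro j
    have h1 : ∑ i ∈ Finset.range (d + 1), N.charpoly.coeff i • N ^ i = 0 := by
      have h2 := Matrix.aeval_self_charpoly N
      rw [Polynomial.aeval_eq_sum_range, Matrix.charpoly_natDegree_eq_dim, Fintype.card_fin] at h2
      exact h2
    have h3 : ∑ i ∈ Finset.range (d + 1), N.charpoly.coeff i • N ^ (j + i) = 0 := by
      have : ∑ i ∈ Finset.range (d + 1), N.charpoly.coeff i • N ^ (j + i) =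
          N ^ j * ∑ i ∈ Finset.range (d + 1), N.charpoly.coeff i • N ^ i := by
        rw [Finset.mul_sum]
        apply Finset.sum_congr rfl
        intro i _
        rw [pow_add, mul_smul_comm]
      rw [this, h1, mul_zero]
    have h4 : ∑ a, ((∑ i ∈ Finset.range (d + 1), N.charpoly.coeff i • N ^ (j + i)).mulVec u) a
        = ∑ i ∈ Finset.range (d + 1), N.charpoly.coeff i * e1a N (j + i) u := by
      rw [Matrix.sum_mulVec]
      simp only [Finset.sum_apply, Matrix.smul_mulVec, Pi.smul_apply, smul_eq_mul]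
      rw [Finset.sum_comm]
      apply Finset.sum_congr rfl
      intro i _
      unfold e1a
      rw [Finset.mul_sum]
    rw [← h4, h3]
    simp
  have hlead : N.charpoly.coeff d = 1 := by
    have h5 := Matrix.charpoly_monic N
    unfold Polynomial.Monic Polynomial.leadingCoeff at h5
    rwa [Matrix.charpoly_natDegree_eq_dim, Fintype.card_fin] at h5
  have hg : ∀ j : ℕ, e1a N (j + 1) u - e1a N j u = 0 := by
    intro j
    induction j using Nat.strong_induction_on with
    | _ j ih =>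
      rcases lt_or_ge j d with hj | hj
      · rw [h (j + 1) hj, h j hj.le, sub_self]
      · obtain ⟨m, rfl⟩ := Nat.exists_eq_add_of_le hj
        have h6 := hch (m + 1)
        have h7 := hch m
        rw [Finset.sum_range_succ, hlead, one_mul] at h6 h7
        have h8 : ∑ i ∈ Finset.range d, N.charpoly.coeff i * e1a N (m + 1 + i) u =
            ∑ i ∈ Finset.range d, N.charpoly.coeff i * e1a N (m + i) u := by
          apply Finset.sum_congr rfl
          intro i hi
          have h9 := ih (m + i) (by have := Finset.mem_range.mp hi; omega)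
          have h10 : m + 1 + i = m + i + 1 := by ring
          rw [h10, sub_eq_zero.mp h9]
        rw [h8] at h6
        have h11 : d + m + 1 = m + 1 + d := by ring
        have h12 : d + m = m + d := by ring
        rw [h11, h12]
        linarith
  intro j
  induction j with
  | zero => exact h 0 (Nat.zero_le _)
  | succ j ih => rw [← ih]; exact sub_eq_zero.mp (hg j)

/-- (1) : van der Waerden -/
lemma e1_vdw {d : ℕ} (M : Matrix (Fin d) (Fin d) ℤ) (z : Fin d → ℚ) (hM : Neutral M z)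
    (F : Finset (Fin d → ℤ)) (H : ℚ) (K : ℕ) :
    ∃ k : ℕ, K ≤ k ∧ ∀ u ∈ F, ((e1a M k u : ℤ) : ℚ) = ∑ a, z a * u a ∨
      H < |((e1a M k u : ℤ) : ℚ) - ∑ a, z a * u a| := by
  by_contra hcon
  push Not at hcon
  -- bad vector for every `k ≥ K`
  have hbad : ∀ k : ℕ, ∃ u ∈ F, ((e1a M (k + K) u : ℤ) : ℚ) ≠ ∑ a, z a * u a ∧
      |((e1a M (k + K) u : ℤ) : ℚ) - ∑ a, z a * u a| ≤ H :=
    fun k => hcon (k + K) (Nat.le_add_left _ _)
  choose U hUF hUne hUH using hbad
  obtain ⟨R, hR⟩ : ∃ R : ℤ, ∀ k, |e1a M (k + K) (U k)| ≤ R := by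
    refine ⟨⌈H⌉ + ∑ u ∈ F, ⌈|∑ a, z a * (u a : ℚ)|⌉, fun k => ?_⟩
    have h1 : |((e1a M (k + K) (U k) : ℤ) : ℚ)| ≤ H + |∑ a, z a * (U k a : ℚ)| := by
      have h2 := abs_add_le (((e1a M (k + K) (U k) : ℤ) : ℚ) - ∑ a, z a * (U k a : ℚ))
        (∑ a, z a * (U k a : ℚ))
      rw [sub_add_cancel] at h2
      exact le_trans h2 (add_le_add (hUH k) le_rfl)
    have h3 : ⌈|∑ a, z a * (U k a : ℚ)|⌉ ≤ ∑ u ∈ F, ⌈|∑ a, z a * (u a : ℚ)|⌉ :=
      Finset.single_le_sum (f := fun u : Fin d → ℤ => ⌈|∑ a, z a * (u a : ℚ)|⌉)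
        (fun u _ => Int.ceil_nonneg (abs_nonneg _)) (hUF k)
    have h4 : ((|e1a M (k + K) (U k)| : ℤ) : ℚ) ≤
        ((⌈H⌉ + ∑ u ∈ F, ⌈|∑ a, z a * (u a : ℚ)|⌉ : ℤ) : ℚ) := by
      have h5 : ((⌈|∑ a, z a * (U k a : ℚ)|⌉ : ℤ) : ℚ) ≤
        ((∑ u ∈ F, ⌈|∑ a, z a * (u a : ℚ)|⌉ : ℤ) : ℚ) := by exact_mod_cast h3
      have h6 := Int.le_ceil H
      have h7 := Int.le_ceil |∑ a, z a * (U k a : ℚ)|
      rw [Int.cast_add, Int.cast_abs]
      linarith
    exact_mod_cast h4
  let C : ℕ → ↥(F ×ˢ Finset.Icc (-R) R) := fun k =>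
    ⟨(U k, e1a M (k + K) (U k)), Finset.mem_product.mpr
      ⟨hUF k, Finset.mem_Icc.mpr (abs_le.mp (hR k))⟩⟩
  obtain ⟨p, hp, b, c, hC⟩ := Combinatorics.exists_mono_homothetic_copy (Finset.range (d + 1)) C
  obtain ⟨⟨u, val⟩, hc⟩ := c
  have hC' : ∀ s : ℕ, s ≤ d → U (p * s + b) = u ∧ e1a M (p * s + b + K) u = val := by
    intro s hs
    have h1 := hC s (Finset.mem_range.mpr (by omega))
    have h2 := congrArg Subtype.val h1
    simp only [C, smul_eq_mul, Prod.mk.injEq] at h2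
    obtain ⟨h3, h4⟩ := h2
    rw [h3] at h4
    exact ⟨h3, h4⟩
  -- the constant sequence
  set u' : Fin d → ℤ := (M ^ (b + K)).mulVec u with hu'
  have hb : ∀ j : ℕ, e1a (M ^ p) j u' = e1a M (p * j + b + K) u := by
    intro j
    unfold e1a
    rw [hu', Matrix.mulVec_mulVec, ← pow_mul, ← pow_add, add_assoc]
  have hconst := e1_const (M ^ p) u' val (fun j hj => by rw [hb j]; exact (hC' j hj).2)
  have h0 : ∑ a, u' a = val := by
    have := hconst 0
    unfold e1a at this
    simpa using this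
  have hneu := hM.2 p hp u' (by
    intro n
    have h1 := hconst n
    unfold e1a at h1
    rw [← pow_mul] at h1
    rw [h1, h0])
  rw [h0, hu', e1_inv M z hM.1 (b + K) u] at hneu
  have h5 := hC' 0 (Nat.zero_le _)
  rw [mul_zero, zero_add] at h5
  have h6 := hUne b
  rw [h5.1, h5.2] at h6
  exact h6 hneu

/-! ### trigonometric part -/

lemma e1_cos_pow (D : ℕ) (t : ℝ) : (((2 * Real.cos (Real.pi * t)) ^ (2 * D) : ℝ) : ℂ) =
    ∑ j ∈ Finset.range (2 * D + 1), ((2 * D).choose j : ℂ) *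
      Complex.exp (2 * Real.pi * Complex.I * ((((j : ℤ) - D : ℤ) : ℂ) * t)) := by
  push_cast
  rw [Complex.two_cos, add_pow]
  apply Finset.sum_congr rfl
  intro j hj
  rw [Finset.mem_range] at hj
  rw [mul_comm]
  congr 1
  rw [← Complex.exp_nat_mul, ← Complex.exp_nat_mul, ← Complex.exp_add]
  congr 1
  have : ((2 * D - j : ℕ) : ℂ) = 2 * D - j := by
    rw [Nat.cast_sub (by omega)]; push_cast; ring
  rw [this]
  ring

/-- bound outside the neighbourhood -/
lemma e1_cos_le {ε t : ℝ} (hε : 0 < ε) (hε2 : ε ≤ 1 / 2)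
    (h : ε ≤ ‖((t : ℝ) : AddCircle (1 : ℝ))‖) :
    Real.cos (Real.pi * t) ^ 2 ≤ Real.cos (Real.pi * ε) ^ 2 := by
  rw [AddCircle.norm_eq] at h
  simp only [inv_one, one_mul, mul_one] at h
  set s : ℝ := t - round t with hs
  have h1 : |s| ≤ 1 / 2 := abs_sub_round t
  have h2 : Real.cos (Real.pi * t) ^ 2 = Real.cos (Real.pi * |s|) ^ 2 := by
    have h3 : Real.cos (Real.pi * |s|) = Real.cos (Real.pi * s) := by
      rcases abs_choice s with h4 | h4
      · rw [h4]
      · rw [h4, mul_neg, Real.cos_neg]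
    rw [h3, hs, mul_sub, Real.cos_sub]
    have h5 : Real.sin (Real.pi * (round t : ℝ)) = 0 := by
      rw [mul_comm]; exact Real.sin_int_mul_pi _
    have h6 : Real.cos (Real.pi * (round t : ℝ)) ^ 2 = 1 := by
      have := Real.sin_sq_add_cos_sq (Real.pi * (round t : ℝ))
      rw [h5] at this
      linarith
    rw [h5, mul_zero, add_zero, mul_pow, h6, mul_one]
  rw [h2]
  have hpi := Real.pi_pos
  have h7 : 0 ≤ Real.cos (Real.pi * |s|) := by
    apply Real.cos_nonneg_of_mem_Icc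
    constructor
    · have := abs_nonneg s; nlinarith
    · nlinarith
  have h8 : Real.cos (Real.pi * |s|) ≤ Real.cos (Real.pi * ε) := by
    apply Real.cos_le_cos_of_nonneg_of_le_pi
    · positivity
    · nlinarith
    · nlinarith
  exact pow_le_pow_left₀ h7 h8 2

lemma e1_prod_expand {d : ℕ} (D : ℕ) (x : Fin d → ℝ) :
    ((∏ a, (2 * Real.cos (Real.pi * x a)) ^ (2 * D) : ℝ) : ℂ) =
    ∑ v ∈ Fintype.piFinset (fun _ : Fin d => Finset.range (2 * D + 1)),
      (∏ a, ((2 * D).choose (v a) : ℂ)) *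
      Complex.exp (2 * Real.pi * Complex.I * (∑ a, (((v a : ℤ) - D : ℤ) : ℂ) * x a)) := by
  rw [Complex.ofReal_prod]
  simp only [e1_cos_pow]
  rw [Finset.prod_univ_sum]
  apply Finset.sum_congr rfl
  intro v _
  rw [Finset.prod_mul_distrib, ← Complex.exp_sum, Finset.mul_sum]

/-- main analytic lemma -/
lemma e1_main {d : ℕ} (L : ℕ → Fin d → ℝ)
    (hL : ∀ (F : Finset (Fin d → ℤ)) (H : ℝ) (K : ℕ), ∃ k : ℕ, K ≤ k ∧ ∀ u ∈ F,
      ∑ a, (u a : ℝ) * L k a = 0 ∨ H < |∑ a, (u a : ℝ) * L k a|)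
    {ε : ℝ} (hε : 0 < ε) (hε2 : ε ≤ 1 / 2) (K : ℕ) (m : ℕ) :
    volume ({ω : ℝ | ∀ k : ℕ, K ≤ k → ∃ a, ε ≤ ‖((L k a * ω : ℝ) : AddCircle (1 : ℝ))‖} ∩
      Set.Icc (-(m : ℝ)) m) = 0 := by
  set B : Set ℝ := {ω : ℝ | ∀ k : ℕ, K ≤ k → ∃ a, ε ≤ ‖((L k a * ω : ℝ) : AddCircle (1 : ℝ))‖} ∩
      Set.Icc (-(m : ℝ)) m with hB
  have hBm : MeasurableSet B := by
    apply MeasurableSet.inter _ measurableSet_Icc
    have h1 : {ω : ℝ | ∀ k : ℕ, K ≤ k → ∃ a, ε ≤ ‖((L k a * ω : ℝ) : AddCircle (1 : ℝ))‖} =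
        ⋂ k : ℕ, ⋂ _ : K ≤ k, ⋃ a, {ω : ℝ | ε ≤ ‖((L k a * ω : ℝ) : AddCircle (1 : ℝ))‖} := by
      ext ω
      simp
    rw [h1]
    refine MeasurableSet.iInter fun k => MeasurableSet.iInter fun _ => MeasurableSet.iUnion fun a => ?_
    apply measurableSet_le measurable_const
    apply Continuous.measurable
    apply continuous_norm.comp
    exact (AddCircle.continuous_mk' (1 : ℝ)).comp (continuous_const.mul continuous_id)
  have hBfin : volume B ≠ ⊤ := by
    apply ne_top_of_le_ne_top _ (measure_mono Set.inter_subset_right)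
    rw [Real.volume_Icc]
    exact ENNReal.ofReal_ne_top
  by_contra hpos
  have hβ : 0 < volume.real B := ENNReal.toReal_pos hpos hBfin
  set β := volume.real B with hβdef
  set κ : ℝ := Real.cos (Real.pi * ε) ^ 2 with hκ
  have hκ0 : 0 ≤ κ := sq_nonneg _
  have hκ1 : κ < 1 := by
    have h1 : 0 < Real.sin (Real.pi * ε) := by
      apply Real.sin_pos_of_pos_of_lt_pi
      · exact mul_pos Real.pi_pos hε
      · nlinarith [Real.pi_pos]
    have := Real.sin_sq_add_cos_sq (Real.pi * ε)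
    nlinarith
  -- choose D
  obtain ⟨D, hD1, hD⟩ : ∃ D : ℕ, 1 ≤ D ∧ (2 * (D : ℝ)) ^ d * κ ^ D < 1 / 2 := by
    have h1 := tendsto_pow_const_mul_const_pow_of_abs_lt_one d
      (show |κ| < 1 by rw [abs_of_nonneg hκ0]; exact hκ1)
    have h2 : Tendsto (fun n : ℕ => (2 * (n : ℝ)) ^ d * κ ^ n) atTop (𝓝 0) := by
      have h3 := h1.const_mul (2 ^ d : ℝ)
      rw [mul_zero] at h3
      refine h3.congr (fun n => ?_)
      rw [mul_pow]; ring
    have h4 := (h2.eventually_lt_const (show (0 : ℝ) < 1 / 2 by norm_num)).and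
      (eventually_ge_atTop 1)
    obtain ⟨D, hD⟩ := h4.exists
    exact ⟨D, hD.2, hD.1⟩
  set p0 : ℝ := ((D.centralBinom : ℝ)) ^ d with hp0
  have hp0pos : 0 < p0 := by
    rw [hp0]
    have : (0 : ℝ) < D.centralBinom := by exact_mod_cast Nat.centralBinom_pos D
    positivity
  have hp0' : (4 : ℝ) ^ (D * d) * κ ^ D < p0 / 2 := by
    have h1 : ((4 : ℝ) ^ D) ≤ 2 * D * D.centralBinom := by
      exact_mod_cast Nat.four_pow_le_two_mul_self_mul_centralBinom D hD1
    have h2 : ((4 : ℝ) ^ D) ^ d ≤ (2 * D) ^ d * p0 := by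
      rw [hp0, ← mul_pow]
      exact pow_le_pow_left₀ (by positivity) h1 d
    rw [pow_mul]
    have h3 : ((4 : ℝ) ^ D) ^ d * κ ^ D ≤ (2 * D) ^ d * p0 * κ ^ D :=
      mul_le_mul_of_nonneg_right h2 (pow_nonneg hκ0 _)
    nlinarith
  -- Riemann-Lebesgue
  set T : Finset (Fin d → ℕ) := Fintype.piFinset (fun _ : Fin d => Finset.range (2 * D + 1))
    with hT
  set η : ℝ := β * p0 / (4 * (4 : ℝ) ^ (D * d)) with hη
  have hηpos : 0 < η := by positivity
  have hRL := Real.tendsto_integral_exp_smul_cocompact (B.indicator (fun _ => (1 : ℂ)))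
  have hRL2 : ∃ H : ℝ, ∀ w : ℝ, H < |w| →
      ‖∫ v : ℝ, 𝐞 (-(v * w)) • B.indicator (fun _ => (1 : ℂ)) v‖ < η := by
    rw [← Metric.cobounded_eq_cocompact, Metric.tendsto_nhds] at hRL
    have h1 := hRL η hηpos
    rw [(Metric.hasBasis_cobounded_compl_closedBall (0 : ℝ)).eventually_iff] at h1
    obtain ⟨H, -, hH⟩ := h1
    refine ⟨H, fun w hw => ?_⟩
    have h2 := hH (x := w) (by
      simp only [Set.mem_compl_iff, Metric.mem_closedBall, dist_zero_right, Real.norm_eq_abs,
        not_le]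
      exact hw)
    rwa [dist_zero_right] at h2
  obtain ⟨H, hH⟩ := hRL2
  obtain ⟨k, hk, hkF⟩ := hL (T.image (fun v => fun a => ((v a : ℤ) - D))) H K
  -- the frequencies
  set lam : (Fin d → ℕ) → ℝ := fun v => ∑ a, (((v a : ℤ) - D : ℤ) : ℝ) * L k a with hlam
  have hexp : ∀ ω : ℝ, ((∏ a, (2 * Real.cos (Real.pi * (L k a * ω))) ^ (2 * D) : ℝ) : ℂ) =
      ∑ v ∈ T, (∏ a, ((2 * D).choose (v a) : ℂ)) *
        Complex.exp (2 * Real.pi * Complex.I * (lam v * ω)) := by
    intro ω
    rw [e1_prod_expand]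
    apply Finset.sum_congr rfl
    intro v _
    congr 3
    rw [hlam]
    push_cast
    rw [Finset.sum_mul]
    apply Finset.sum_congr rfl
    intro a _
    ring
  have hint : ∀ c : ℝ, IntegrableOn (fun ω : ℝ => Complex.exp (2 * Real.pi * Complex.I * (c * ω)))
      B volume := by
    intro c
    apply Measure.integrableOn_of_bounded (M := 1) hBfin
    · apply Continuous.aestronglyMeasurable
      fun_prop
    · refine Eventually.of_forall fun ω => ?_
      have : (2 * Real.pi * Complex.I * (c * ω) : ℂ) = ((2 * Real.pi * (c * ω) : ℝ) : ℂ) * Complex.I := by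
        push_cast; ring
      rw [this, Complex.norm_exp_ofReal_mul_I]
  have hval : ∀ v ∈ T, (lam v = 0 ∧
        ∫ ω in B, Complex.exp (2 * Real.pi * Complex.I * (lam v * ω)) = (β : ℂ)) ∨
      ‖∫ ω in B, Complex.exp (2 * Real.pi * Complex.I * (lam v * ω))‖ ≤ η := by
    intro v hv
    rcases hkF _ (Finset.mem_image_of_mem _ hv) with h0 | h1
    · left
      have h0' : lam v = 0 := h0
      refine ⟨h0', ?_⟩
      rw [h0']
      simp only [Complex.ofReal_zero, zero_mul, mul_zero, Complex.exp_zero]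
      rw [setIntegral_const]
      simp [hβdef]
    · right
      have h1' : H < |-(lam v)| := by rw [abs_neg]; exact h1
      have h2 := hH _ h1'
      have h3 : ∫ w : ℝ, 𝐞 (-(w * -(lam v))) • B.indicator (fun _ => (1 : ℂ)) w =
          ∫ ω in B, Complex.exp (2 * Real.pi * Complex.I * (lam v * ω)) := by
        rw [← integral_indicator hBm]
        apply integral_congr_ae
        refine Eventually.of_forall fun ω => ?_
        by_cases hω : ω ∈ B
        · simp only [Set.indicator_of_mem hω]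
          rw [Circle.smul_def, Real.fourierChar_apply, smul_eq_mul, mul_one]
          congr 1
          push_cast
          ring
        · simp only [Set.indicator_of_notMem hω, smul_zero]
      rw [h3] at h2
      exact h2.le
  have hre : ∀ v ∈ T, -η ≤ (∫ ω in B, Complex.exp (2 * Real.pi * Complex.I * (lam v * ω))).re := by
    intro v hv
    rcases hval v hv with ⟨-, h⟩ | h
    · rw [h, Complex.ofReal_re]; linarith
    · have := Complex.abs_re_le_norm (∫ ω in B, Complex.exp (2 * Real.pi * Complex.I * (lam v * ω)))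
      have := neg_abs_le (∫ ω in B, Complex.exp (2 * Real.pi * Complex.I * (lam v * ω))).re
      linarith
  -- integrate
  have hI : ∫ ω in B, (∏ a, (2 * Real.cos (Real.pi * (L k a * ω))) ^ (2 * D)) =
      ∑ v ∈ T, (∏ a, ((2 * D).choose (v a) : ℝ)) *
        (∫ ω in B, Complex.exp (2 * Real.pi * Complex.I * (lam v * ω))).re := by
    have h1 : ((∫ ω in B, (∏ a, (2 * Real.cos (Real.pi * (L k a * ω))) ^ (2 * D)) : ℝ) : ℂ) =
        ∑ v ∈ T, (∏ a, ((2 * D).choose (v a) : ℂ)) *
        (∫ ω in B, Complex.exp (2 * Real.pi * Complex.I * (lam v * ω))) := by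
      rw [← integral_complex_ofReal]
      simp only [hexp]
      rw [integral_finsetSum]
      · apply Finset.sum_congr rfl
        intro v _
        rw [integral_const_mul]
      · intro v _
        exact (hint (lam v)).const_mul _
    have h3 := congrArg Complex.re h1
    rw [Complex.ofReal_re, Complex.re_sum] at h3
    rw [h3]
    apply Finset.sum_congr rfl
    intro v _
    have h4 : (∏ a, ((2 * D).choose (v a) : ℂ)) = ((∏ a, ((2 * D).choose (v a) : ℝ) : ℝ) : ℂ) := by
      push_cast; rfl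
    rw [h4, Complex.re_ofReal_mul]
  -- the upper bound
  have hup : ∫ ω in B, (∏ a, (2 * Real.cos (Real.pi * (L k a * ω))) ^ (2 * D)) ≤
      (4 : ℝ) ^ (D * d) * κ ^ D * β := by
    have h1 : ∀ ω ∈ B, (∏ a, (2 * Real.cos (Real.pi * (L k a * ω))) ^ (2 * D)) ≤
        (4 : ℝ) ^ (D * d) * κ ^ D := by
      intro ω hω
      obtain ⟨a0, ha0⟩ := hω.1 k hk
      have h2 : ∀ a, (2 * Real.cos (Real.pi * (L k a * ω))) ^ (2 * D) =
          4 ^ D * (Real.cos (Real.pi * (L k a * ω)) ^ 2) ^ D := by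
        intro a
        rw [pow_mul, ← mul_pow]
        congr 1
        ring
      simp only [h2]
      rw [Finset.prod_mul_distrib, Finset.prod_const, Finset.card_univ, Fintype.card_fin,
        ← pow_mul]
      apply mul_le_mul_of_nonneg_left _ (by positivity)
      rw [← Finset.mul_prod_erase _ _ (Finset.mem_univ a0)]
      have h3 : ∏ a ∈ Finset.univ.erase a0, (Real.cos (Real.pi * (L k a * ω)) ^ 2) ^ D ≤ 1 := by
        apply Finset.prod_le_one
        · intro a _; positivity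
        · intro a _
          apply pow_le_one₀ (sq_nonneg _)
          exact Real.cos_sq_le_one _
      have h4 : (Real.cos (Real.pi * (L k a0 * ω)) ^ 2) ^ D ≤ κ ^ D :=
        pow_le_pow_left₀ (sq_nonneg _) (e1_cos_le hε hε2 ha0) D
      calc (Real.cos (Real.pi * (L k a0 * ω)) ^ 2) ^ D *
            ∏ a ∈ Finset.univ.erase a0, (Real.cos (Real.pi * (L k a * ω)) ^ 2) ^ D
          ≤ κ ^ D * 1 := by
            apply mul_le_mul h4 h3 _ (pow_nonneg hκ0 _)
            apply Finset.prod_nonneg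
            intro a _; positivity
        _ = κ ^ D := mul_one _
    have h5 : ∫ ω in B, (∏ a, (2 * Real.cos (Real.pi * (L k a * ω))) ^ (2 * D)) ≤
        ∫ ω in B, (4 : ℝ) ^ (D * d) * κ ^ D := by
      apply setIntegral_mono_on _ _ hBm h1
      · apply Measure.integrableOn_of_bounded (M := (4 : ℝ) ^ (D * d)) hBfin
        · apply Continuous.aestronglyMeasurable
          fun_prop
        · refine Eventually.of_forall fun ω => ?_
          rw [Real.norm_eq_abs, Finset.abs_prod]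
          have h6 : ∀ a ∈ (Finset.univ : Finset (Fin d)),
              |(2 * Real.cos (Real.pi * (L k a * ω))) ^ (2 * D)| ≤ 4 ^ D := by
            intro a _
            rw [abs_pow, abs_mul, abs_two, pow_mul]
            apply pow_le_pow_left₀ (by positivity)
            have := Real.abs_cos_le_one (Real.pi * (L k a * ω))
            have := abs_nonneg (Real.cos (Real.pi * (L k a * ω)))
            nlinarith
          have h7 := Finset.prod_le_prod (fun a _ => abs_nonneg _) h6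
          rw [Finset.prod_const, Finset.card_univ, Fintype.card_fin, ← pow_mul] at h7
          exact h7
      · exact integrableOn_const hBfin
    refine le_trans h5 (le_of_eq ?_)
    rw [setIntegral_const, smul_eq_mul, mul_comm]
  -- the lower bound
  have hlow : p0 * β - η * (4 : ℝ) ^ (D * d) ≤
      ∫ ω in B, (∏ a, (2 * Real.cos (Real.pi * (L k a * ω))) ^ (2 * D)) := by
    rw [hI]
    set v0 : Fin d → ℕ := fun _ => D with hv0
    have hv0T : v0 ∈ T := by
      rw [hT, Fintype.mem_piFinset]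
      intro a
      rw [Finset.mem_range]
      simp only [hv0]
      omega
    rw [← Finset.add_sum_erase _ _ hv0T]
    have h1 : (∏ a, ((2 * D).choose (v0 a) : ℝ)) *
        (∫ ω in B, Complex.exp (2 * Real.pi * Complex.I * (lam v0 * ω))).re = p0 * β := by
      have h2 : lam v0 = 0 := by
        rw [hlam]
        simp [hv0]
      have h3 : ∫ ω in B, Complex.exp (2 * Real.pi * Complex.I * (lam v0 * ω)) = (β : ℂ) := by
        rw [h2]
        simp only [Complex.ofReal_zero, zero_mul, mul_zero, Complex.exp_zero]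
        rw [setIntegral_const]
        simp [hβdef]
      rw [h3, Complex.ofReal_re]
      congr 1
      have h10 : ∀ a, ((2 * D).choose (v0 a) : ℝ) = (D.centralBinom : ℝ) := fun a => rfl
      simp only [h10]
      rw [hp0, Finset.prod_const, Finset.card_univ, Fintype.card_fin]
    rw [h1]
    have h4 : -(η * (4 : ℝ) ^ (D * d)) ≤ ∑ v ∈ T.erase v0, (∏ a, ((2 * D).choose (v a) : ℝ)) *
        (∫ ω in B, Complex.exp (2 * Real.pi * Complex.I * (lam v * ω))).re := by
      have h5 : ∑ v ∈ T.erase v0, (∏ a, ((2 * D).choose (v a) : ℝ)) * (-η) ≤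
          ∑ v ∈ T.erase v0, (∏ a, ((2 * D).choose (v a) : ℝ)) *
        (∫ ω in B, Complex.exp (2 * Real.pi * Complex.I * (lam v * ω))).re := by
        apply Finset.sum_le_sum
        intro v hv
        apply mul_le_mul_of_nonneg_left (hre v (Finset.mem_of_mem_erase hv))
        positivity
      refine le_trans ?_ h5
      rw [← Finset.sum_mul]
      have h6 : ∑ v ∈ T.erase v0, (∏ a, ((2 * D).choose (v a) : ℝ)) ≤ (4 : ℝ) ^ (D * d) := by
        have h7 : ∑ v ∈ T, (∏ a, ((2 * D).choose (v a) : ℝ)) = (4 : ℝ) ^ (D * d) := by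
          rw [hT, ← Finset.prod_univ_sum (fun _ => Finset.range (2 * D + 1))
            (fun _ j => ((2 * D).choose j : ℝ))]
          rw [Finset.prod_const, Finset.card_univ, Fintype.card_fin, pow_mul]
          congr 1
          have h8 := Nat.sum_range_choose (2 * D)
          have h9 : ((∑ m ∈ Finset.range (2 * D + 1), (2 * D).choose m : ℕ) : ℝ) =
            ((2 ^ (2 * D) : ℕ) : ℝ) := by rw [h8]
          push_cast at h9
          rw [h9, pow_mul]
          norm_num
        rw [← h7]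
        apply Finset.sum_le_sum_of_subset_of_nonneg (Finset.erase_subset _ _)
        intro v _ _
        positivity
      nlinarith
    linarith
  have hfin : η * (4 : ℝ) ^ (D * d) = β * p0 / 4 := by
    rw [hη]; field_simp
  have h4D : (0 : ℝ) < (4 : ℝ) ^ (D * d) := by positivity
  nlinarith

theorem E1 : E1_stmt := by
  intro d M z hM
  have hL : ∀ (F : Finset (Fin d → ℤ)) (H : ℝ) (K : ℕ), ∃ k : ℕ, K ≤ k ∧ ∀ u ∈ F,
      ∑ a, (u a : ℝ) * (((ell M k a : ℤ) : ℝ) - ((z a : ℚ) : ℝ)) = 0 ∨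
      H < |∑ a, (u a : ℝ) * (((ell M k a : ℤ) : ℝ) - ((z a : ℚ) : ℝ))| := by
    intro F H K
    obtain ⟨H', hH'⟩ := exists_rat_gt H
    obtain ⟨k, hk, hkF⟩ := e1_vdw M z hM F H' K
    refine ⟨k, hk, fun u hu => ?_⟩
    have h1 : ∑ a, (u a : ℝ) * (((ell M k a : ℤ) : ℝ) - ((z a : ℚ) : ℝ)) =
        ((((e1a M k u : ℤ) : ℚ) - ∑ a, z a * u a : ℚ) : ℝ) := by
      rw [e1a_eq]
      push_cast
      rw [← Finset.sum_sub_distrib]
      apply Finset.sum_congr rfl
      intro a _
      ring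
    rw [h1]
    rcases hkF u hu with h | h
    · left
      rw [h, sub_self, Rat.cast_zero]
    · right
      have h2 : (H' : ℝ) < ((|((e1a M k u : ℤ) : ℚ) - ∑ a, z a * u a| : ℚ) : ℝ) := by
        exact_mod_cast h
      rw [Rat.cast_abs] at h2
      linarith
  -- countable intersection
  have hae : ∀ᵐ ω : ℝ, ∀ (n K m : ℕ),
      ω ∉ ({ω : ℝ | ∀ k : ℕ, K ≤ k → ∃ a, (1 / ((n : ℝ) + 2)) ≤
        ‖((((((ell M k a : ℤ) : ℝ) - ((z a : ℚ) : ℝ)) * ω : ℝ)) : AddCircle (1 : ℝ))‖} ∩
      Set.Icc (-(m : ℝ)) m) := by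
    rw [ae_all_iff]; intro n
    rw [ae_all_iff]; intro K
    rw [ae_all_iff]; intro m
    have h0 : (0 : ℝ) < 1 / ((n : ℝ) + 2) := by positivity
    have h1 : (1 : ℝ) / ((n : ℝ) + 2) ≤ 1 / 2 := by
      apply one_div_le_one_div_of_le (by norm_num)
      have : (0 : ℝ) ≤ n := Nat.cast_nonneg n
      linarith
    exact measure_eq_zero_iff_ae_notMem.mp
      (e1_main (fun k a => ((ell M k a : ℤ) : ℝ) - ((z a : ℚ) : ℝ)) hL h0 h1 K m)
  filter_upwards [hae] with ω hω ε hε K
  obtain ⟨n, hn⟩ := exists_nat_one_div_lt hε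
  obtain ⟨m, hm⟩ := exists_nat_ge |ω|
  have h1 := hω n K m
  have h2 : ω ∈ Set.Icc (-(m : ℝ)) m := abs_le.mp hm
  have h3 : ¬ ∀ k : ℕ, K ≤ k → ∃ a, (1 / ((n : ℝ) + 2)) ≤
        ‖((((((ell M k a : ℤ) : ℝ) - ((z a : ℚ) : ℝ)) * ω : ℝ)) : AddCircle (1 : ℝ))‖ :=
    fun h => h1 ⟨h, h2⟩
  push Not at h3
  obtain ⟨k, hk, hka⟩ := h3
  refine ⟨k, hk, fun a => lt_trans (hka a) (lt_trans ?_ hn)⟩
  apply one_div_lt_one_div_of_lt (by positivity)
  linarith

end Pool.Agent.Helper97.Sub
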